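import Pool.Agent.Helper220_TM.Final

set_option autoImplicit false

/-!
# The topological full group of the Morse subshift has subgroups of intermediate growth

All definitions are in `Pool/Agent/Helper220_TM/Full.lean` (`substWord`, `SubstShift`, `shiftT`,
`fullGroup`, `morse`) and `Pool/Agent/Helper220_TM/Final.lean` (`ball`, `growth`,
`IntermediateGrowth`).

The subgroup is generated by three involutions: `A` exchanges the two letters of each block `01`,
`10`; `C` and `D` exchange the two places next to a boundary of two blocks, `C` if the letters there
are equal and `D` if they are different. Desubstitution identifies the subshift with two copies of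
itself, and with respect to it `B = CD`, `C` and `D` act by `B = (A, B)`, `C = (A, D)`, `D = (1, C)`.
So the group maps onto the Grigorchuk group `G_ω`, `ω = 0101…`, and a word is contracted by every
letter `C` or `D`; there are few words with few such letters.
-/

namespace Pool.Agent.Results.MP_0e9457_al.Morse

open Pool.Agent.Helper220_TM

/-- The topological full group of the Morse subshift `X` (the substitution subshift of `0 ↦ 01`,
`1 ↦ 10`, with the left shift) has a finitely generated subgroup of intermediate growth. -/
theorem result : ∃ H : Subgroup (SubstShift morse ≃ₜ SubstShift morse),
    H ≤ fullGroup (shiftT morse) ∧ IntermediateGrowth H :=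
  ⟨HM, HM_le, HM_intermediate⟩

end Pool.Agent.Results.MP_0e9457_al.Morse
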